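import Pool.Agent.H6.NE.Stm1

set_option autoImplicit false

open Finset

namespace H81.NE

open H6.NE

theorem t_PL (hNOD : S_NOD) : S_PL := by
  intro p N _ hN V _ _ P1 P2 hs1 hs2 u1 u2 r1 r2 hu1 hu2 hb1 hb2 hr
  obtain ⟨hnd, hcard, -, hunit⟩ := hNOD p N hN
  classical
  by_contra hno
  push Not at hno
  have hp : 2 ≤ p := (Fact.out : p.Prime).two_le
  -- the nodes `0, ..., p-1`
  set Z : Finset (ZMod (p ^ N)) := (Finset.range p).image (fun i : ℕ => (i : ZMod (p ^ N))) with hZ
  have hinj : Set.InjOn (fun i : ℕ => (i : ZMod (p ^ N))) (Finset.range p : Set ℕ) := by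
    apply Finset.injOn_of_card_image_eq
    rw [← hZ, hcard, Finset.card_range]
  -- bad nodes for `P1` in the pencil `u2 + s u1`
  set T1 : Finset (ZMod (p ^ N)) := Z.filter fun s => ¬ P1 (u2 + s • u1) with hT1
  have hc1 : T1.card ≤ r1 := by
    apply hb1 u2 T1
    · intro s hs t ht hst
      exact hnd s (Finset.mem_filter.1 hs).1 t (Finset.mem_filter.1 ht).1 hst
    · intro s hs
      exact (Finset.mem_filter.1 hs).2
  -- `0` is bad for `P1`
  have h0Z : (0 : ZMod (p ^ N)) ∈ Z := by
    rw [hZ, Finset.mem_image]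
    exact ⟨0, Finset.mem_range.2 (by omega), by simp⟩
  have h01 : (0 : ZMod (p ^ N)) ∈ T1 := by
    rw [hT1, Finset.mem_filter]
    refine ⟨h0Z, ?_⟩
    rw [zero_smul, add_zero]
    exact fun h => hno u2 h hu2
  -- nonzero nodes are units
  have hZu : ∀ s ∈ Z, s ≠ 0 → IsUnit s := by
    intro s hs h0
    have := hnd s hs 0 h0Z h0
    rwa [sub_zero] at this
  -- bad nodes for `P2`
  set T2 : Finset (ZMod (p ^ N)) :=
    insert 0 ((Z.filter fun s => s ≠ 0 ∧ ¬ P2 (u2 + s • u1)).image fun s => s⁻¹) with hT2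
  have hinvmul : ∀ s : ZMod (p ^ N), IsUnit s → s⁻¹ * s = 1 := by
    intro s hs
    exact ZMod.inv_mul_of_unit s hs
  have hmulinv : ∀ s : ZMod (p ^ N), IsUnit s → s * s⁻¹ = 1 := by
    intro s hs
    exact ZMod.mul_inv_of_unit s hs
  have hinvu : ∀ s : ZMod (p ^ N), IsUnit s → IsUnit s⁻¹ := by
    intro s hs
    exact IsUnit.of_mul_eq_one _ (hinvmul s hs)
  have hc2 : T2.card ≤ r2 := by
    apply hb2 u1 T2
    · intro s hs t ht hst
      rw [hT2, Finset.mem_insert, Finset.mem_image] at hs ht
      rcases hs with hs | ⟨s', hs', rfl⟩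
      · rcases ht with ht | ⟨t', ht', rfl⟩
        · exact absurd (hs.trans ht.symm) hst
        · rw [Finset.mem_filter] at ht'
          rw [hs, zero_sub]
          exact (hinvu _ (hZu _ ht'.1 ht'.2.1)).neg
      · rw [Finset.mem_filter] at hs'
        have hu := hZu _ hs'.1 hs'.2.1
        rcases ht with ht | ⟨t', ht', rfl⟩
        · rw [ht, sub_zero]
          exact hinvu _ hu
        · rw [Finset.mem_filter] at ht'
          have hu' := hZu _ ht'.1 ht'.2.1
          have hne : t' ≠ s' := by
            rintro rfl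
            exact hst rfl
          have h1 := hnd t' ht'.1 s' hs'.1 hne
          have h2 : s'⁻¹ - t'⁻¹ = (t' - s') * (s'⁻¹ * t'⁻¹) := by
            have e1 := hmulinv s' hu
            have e2 := hmulinv t' hu'
            calc s'⁻¹ - t'⁻¹ = s'⁻¹ * (t' * t'⁻¹) - t'⁻¹ * (s' * s'⁻¹) := by rw [e1, e2]; ring
              _ = (t' - s') * (s'⁻¹ * t'⁻¹) := by ring
          rw [h2]
          exact h1.mul ((hinvu _ hu).mul (hinvu _ hu'))
    · intro s hs
      rw [hT2, Finset.mem_insert, Finset.mem_image] at hs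
      rcases hs with hs | ⟨s', hs', rfl⟩
      · rw [hs, zero_smul, add_zero]
        exact fun h => hno u1 hu1 h
      · rw [Finset.mem_filter] at hs'
        have hu := hZu _ hs'.1 hs'.2.1
        intro h
        apply hs'.2.2
        have h3 := hs2 s' hu _ h
        rw [smul_add, smul_smul, hmulinv s' hu, one_smul] at h3
        rwa [add_comm]
  have hc2' : (Z.filter fun s => s ≠ 0 ∧ ¬ P2 (u2 + s • u1)).card + 1 ≤ r2 := by
    have h1 : T2.card = (Z.filter fun s => s ≠ 0 ∧ ¬ P2 (u2 + s • u1)).card + 1 := by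
      rw [hT2, Finset.card_insert_of_notMem, Finset.card_image_of_injOn]
      · intro s hs t ht hst
        have hs' := Finset.mem_filter.1 (Finset.mem_coe.1 hs)
        have ht' := Finset.mem_filter.1 (Finset.mem_coe.1 ht)
        have hu := hZu _ hs'.1 hs'.2.1
        have hu' := hZu _ ht'.1 ht'.2.1
        have hst' : s⁻¹ = t⁻¹ := hst
        calc s = s * (t⁻¹ * t) := by rw [hinvmul t hu', mul_one]
          _ = (s * s⁻¹) * t := by rw [← hst']; ring
          _ = t := by rw [hmulinv s hu, one_mul]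
      · rw [Finset.mem_image]
        rintro ⟨s, hs, hs0⟩
        rw [Finset.mem_filter] at hs
        have hu := hZu _ hs.1 hs.2.1
        have := hmulinv s hu
        rw [hs0, mul_zero] at this
        apply hs.2.1
        calc s = s * 1 := (mul_one s).symm
          _ = s * 0 := by rw [this]
          _ = 0 := mul_zero s
    omega
  -- all nonzero nodes are bad for `P1` or for `P2`
  have hcov : Z ⊆ T1 ∪ (Z.filter fun s => s ≠ 0 ∧ ¬ P2 (u2 + s • u1)) := by
    intro s hs
    rw [Finset.mem_union]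
    by_cases h1 : P1 (u2 + s • u1)
    · right
      rw [Finset.mem_filter]
      refine ⟨hs, ?_, hno _ h1⟩
      rintro rfl
      rw [zero_smul, add_zero] at h1
      exact hno u2 h1 hu2
    · left
      rw [hT1, Finset.mem_filter]
      exact ⟨hs, h1⟩
  have h5 := (Finset.card_le_card hcov).trans (Finset.card_union_le _ _)
  rw [hcard] at h5
  omega

end H81.NE
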